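import Mathlib
import Pool.Agent.Lib.MP_b06a2d_nt.Key

set_option autoImplicit false

namespace Pool.Agent.Results.MP_b06a2d_nt.LargeWeight

open Complex MeasureTheory Set ModularForm
open scoped Real MatrixGroups
open Pool.Agent.Lib.MP_b06a2d_nt

/-- `f_χ(z) = ∑_m χ(m) a_f(m) e^{2π i m z}`, where `a_f(m)` is the `m`-th Fourier coefficient of
the cusp form `f` (so `a_f(0) = 0`). -/
noncomputable def twistSeries {D : ℕ} (χ : DirichletCharacter ℂ D) {K : ℤ} (f : CuspForm 𝒮ℒ K)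
    (z : ℂ) : ℂ :=
  ∑' m : ℕ, χ (m : ZMod D) * (UpperHalfPlane.qExpansion 1 f).coeff m *
    Complex.exp (2 * π * I * m * z)

/-- The `t`-th twisted period `r_{t,χ}(f) = ∫_0^{i∞} f_χ(z) z^t dz`, written with `z = i y`. -/
noncomputable def twistedPeriod {D : ℕ} (χ : DirichletCharacter ℂ D) {K : ℤ} (t : ℕ)
    (f : CuspForm 𝒮ℒ K) : ℂ :=
  ∫ y in Ioi (0 : ℝ), twistSeries χ f (I * y) * (I * y) ^ t * I

section aux

variable {D : ℕ} [NeZero D]

lemma sum_char_eq_units (χ : DirichletCharacter ℂ D) (g : ZMod D → ℂ) :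
    ∑ a : ZMod D, χ a * g a = ∑ u : (ZMod D)ˣ, χ (u : ZMod D) * g u := by
  classical
  have h := Finset.sum_map (Finset.univ : Finset (ZMod D)ˣ) ⟨Units.val, Units.val_injective⟩
    (fun a : ZMod D ↦ χ a * g a)
  simp only [Function.Embedding.coeFn_mk] at h
  rw [← h]
  symm
  refine Finset.sum_subset (Finset.subset_univ _) (fun a _ ha ↦ ?_)
  have : ¬ IsUnit a := by
    rintro ⟨u, rfl⟩
    exact ha (by simp)
  rw [χ.map_nonunit this, zero_mul]

omit [NeZero D] in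
lemma isPrimitive_inv {χ : DirichletCharacter ℂ D} (h : χ.IsPrimitive) : χ⁻¹.IsPrimitive := by
  rw [DirichletCharacter.isPrimitive_def] at h ⊢
  rw [DirichletCharacter.conductor_inv, h]

lemma gaussSum_ne_zero' {χ : DirichletCharacter ℂ D} (h : χ.IsPrimitive) :
    gaussSum χ (ZMod.stdAddChar (N := D)) ≠ 0 := by
  intro h0
  have h1 : ZMod.dft (χ : ZMod D → ℂ) = 0 := by
    ext k
    rw [h.fourierTransform_eq_inv_mul_gaussSum, h0, mul_zero]
    rfl
  have h2 : (χ : ZMod D → ℂ) = 0 := by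
    rwa [LinearEquiv.map_eq_zero_iff] at h1
  have h3 := congrFun h2 1
  simp at h3

lemma stdAddChar_natCast_mul (r : ℕ) (v : ZMod D) :
    ZMod.stdAddChar ((r : ZMod D) * v) = Complex.exp (2 * π * I * r * ((v.val : ℝ) / D : ℝ)) := by
  have h : (r : ZMod D) * v = (((r * v.val : ℕ) : ℤ) : ZMod D) := by
    push_cast
    rw [ZMod.natCast_zmod_val]
  rw [h, ZMod.stdAddChar_coe]
  congr 1
  push_cast
  ring

omit [NeZero D] in
/-- Fourier expansion along the line over `x`. -/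
lemma hasSum_onLine {K : ℤ} (f : CuspForm 𝒮ℒ K) (x : ℝ) {y : ℝ} (hy : 0 < y) :
    HasSum (fun m : ℕ ↦ (UpperHalfPlane.qExpansion 1 f).coeff m *
      Complex.exp (2 * π * I * m * x) * Complex.exp (2 * π * I * m * (I * y))) (onLine f x y) := by
  have h := ModularForm.hasSum_qExpansion (h := 1) f one_pos one_mem_strictPeriods_SL
    (UpperHalfPlane.ofComplex ((x : ℂ) + y * I))
  have e : (fun m : ℕ ↦ (UpperHalfPlane.qExpansion 1 f).coeff m *
      Function.Periodic.qParam 1 ((UpperHalfPlane.ofComplex ((x : ℂ) + y * I) :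
        UpperHalfPlane) : ℂ) ^ m) = (fun m : ℕ ↦ (UpperHalfPlane.qExpansion 1 f).coeff m *
      Complex.exp (2 * π * I * m * x) * Complex.exp (2 * π * I * m * (I * y))) := by
    funext m
    have e1 : ∀ a b c : ℂ, a * b * c = a * (b * c) := fun a b c ↦ by ring
    rw [coe_ofComplex_line hy, Function.Periodic.qParam, ← Complex.exp_nat_mul,
      e1 ((UpperHalfPlane.qExpansion 1 f).coeff m), ← Complex.exp_add]
    congr 2
    push_cast
    ring
  rw [e] at h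
  exact h

/-- `f_χ` as a combination of values of `f` on the lines over `u/D`. -/
lemma twistSeries_eq {χ : DirichletCharacter ℂ D} (hχ : χ.IsPrimitive) {K : ℤ} (f : CuspForm 𝒮ℒ K)
    {y : ℝ} (hy : 0 < y) :
    twistSeries χ f (I * y) = (gaussSum χ⁻¹ (ZMod.stdAddChar (N := D)))⁻¹ *
      ∑ u : (ZMod D)ˣ, χ⁻¹ (u : ZMod D) * onLine f (((u : ZMod D).val : ℝ) / D) y := by
  have hτ := gaussSum_ne_zero' (isPrimitive_inv hχ)
  rw [← sum_char_eq_units χ⁻¹ (fun u ↦ onLine f ((u.val : ℝ) / D) y)]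
  have h1 : HasSum (fun m : ℕ ↦ ∑ u : ZMod D, χ⁻¹ u *
      ((UpperHalfPlane.qExpansion 1 f).coeff m *
      Complex.exp (2 * π * I * m * ((u.val : ℝ) / D : ℝ)) * Complex.exp (2 * π * I * m * (I * y))))
      (∑ u : ZMod D, χ⁻¹ u * onLine f ((u.val : ℝ) / D) y) :=
    hasSum_sum fun u _ ↦ (hasSum_onLine f _ hy).mul_left _
  have h2 : (fun m : ℕ ↦ ∑ u : ZMod D, χ⁻¹ u *
      ((UpperHalfPlane.qExpansion 1 f).coeff m *
      Complex.exp (2 * π * I * m * ((u.val : ℝ) / D : ℝ)) *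
        Complex.exp (2 * π * I * m * (I * y)))) =
      fun m : ℕ ↦ gaussSum χ⁻¹ (ZMod.stdAddChar (N := D)) * (χ (m : ZMod D) *
        (UpperHalfPlane.qExpansion 1 f).coeff m * Complex.exp (2 * π * I * m * (I * y))) := by
    funext m
    have h3 := gaussSum_mulShift_of_isPrimitive (ZMod.stdAddChar (N := D)) (isPrimitive_inv hχ)
      (m : ZMod D)
    rw [inv_inv] at h3
    calc _ = (∑ u : ZMod D, χ⁻¹ u * ZMod.stdAddChar ((m : ZMod D) * u)) *
          ((UpperHalfPlane.qExpansion 1 f).coeff m * Complex.exp (2 * π * I * m * (I * y))) := by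
          rw [Finset.sum_mul]
          refine Finset.sum_congr rfl fun u _ ↦ ?_
          rw [stdAddChar_natCast_mul]
          ring
      _ = gaussSum χ⁻¹ ((ZMod.stdAddChar (N := D)).mulShift (m : ZMod D)) *
          ((UpperHalfPlane.qExpansion 1 f).coeff m * Complex.exp (2 * π * I * m * (I * y))) := rfl
      _ = _ := by rw [h3]; ring
  rw [h2] at h1
  have h4 := h1.mul_left (gaussSum χ⁻¹ (ZMod.stdAddChar (N := D)))⁻¹
  have h5 : ∀ a : ℂ, (gaussSum χ⁻¹ (ZMod.stdAddChar (N := D)))⁻¹ *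
      (gaussSum χ⁻¹ (ZMod.stdAddChar (N := D)) * a) = a := fun a ↦ by
    rw [← mul_assoc, inv_mul_cancel₀ hτ, one_mul]
  simp only [h5] at h4
  rw [twistSeries, ← h4.tsum_eq]

/-- The inverse, up to sign. -/
lemma exists_relation (v : (ZMod D)ˣ) : ∃ b : ℤ,
    ((((-v⁻¹ : (ZMod D)ˣ) : ZMod D).val : ℤ)) * (((v : ZMod D).val : ℤ)) + 1 = b * D := by
  have h : (((((-v⁻¹ : (ZMod D)ˣ) : ZMod D).val : ℤ)) * (((v : ZMod D).val : ℤ)) + 1 : ℤ) =
      (((((-v⁻¹ : (ZMod D)ˣ) : ZMod D).val : ℤ)) * (((v : ZMod D).val : ℤ)) + 1 : ℤ) := rfl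
  have h2 : (((((((-v⁻¹ : (ZMod D)ˣ) : ZMod D).val : ℤ)) * (((v : ZMod D).val : ℤ)) + 1 : ℤ)) :
      ZMod D) = 0 := by
    push_cast
    rw [ZMod.natCast_zmod_val, ZMod.natCast_zmod_val]
    simp
  rw [ZMod.intCast_zmod_eq_zero_iff_dvd] at h2
  obtain ⟨b, hb⟩ := h2
  exact ⟨b, by rw [hb]; ring⟩

lemma abs_val_div_le (v : ZMod D) : |((v.val : ℤ) : ℝ) / D| ≤ 1 := by
  have hD : (0 : ℝ) < D := by exact_mod_cast Nat.pos_of_ne_zero (NeZero.ne D)
  rw [abs_of_nonneg (by positivity), div_le_one hD]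
  exact_mod_cast (ZMod.val_lt v).le

/-- Period as a combination of the vertical integrals. -/
lemma twistedPeriod_eq {χ : DirichletCharacter ℂ D} (hχ : χ.IsPrimitive) {K : ℤ}
    (f : CuspForm 𝒮ℒ K) (n : ℕ)
    (hint : ∀ u : (ZMod D)ˣ, IntegrableOn
      (fun y : ℝ ↦ onLine f ((((u : ZMod D).val : ℤ) : ℝ) / D) y * (y : ℂ) ^ n) (Ioi 0)) :
    twistedPeriod χ n f = I ^ (n + 1) * (gaussSum χ⁻¹ (ZMod.stdAddChar (N := D)))⁻¹ *
      ∑ u : (ZMod D)ˣ, χ⁻¹ (u : ZMod D) *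
        ∫ y in Ioi (0 : ℝ), onLine f ((((u : ZMod D).val : ℤ) : ℝ) / D) y * (y : ℂ) ^ n := by
  have h1 : ∀ y ∈ Ioi (0 : ℝ), twistSeries χ f (I * y) * (I * y) ^ n * I =
      I ^ (n + 1) * (gaussSum χ⁻¹ (ZMod.stdAddChar (N := D)))⁻¹ *
      ∑ u : (ZMod D)ˣ, χ⁻¹ (u : ZMod D) *
        (onLine f ((((u : ZMod D).val : ℤ) : ℝ) / D) y * (y : ℂ) ^ n) := by
    intro y hy
    rw [twistSeries_eq hχ f hy, mul_pow]
    simp only [Int.cast_natCast]
    rw [Finset.mul_sum, Finset.sum_mul, Finset.sum_mul, Finset.mul_sum]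
    refine Finset.sum_congr rfl fun u _ ↦ ?_
    ring
  rw [twistedPeriod, setIntegral_congr_fun measurableSet_Ioi h1, integral_const_mul,
    integral_finsetSum _ (fun u _ ↦ (hint u).const_mul _)]
  congr 1
  refine Finset.sum_congr rfl fun u _ ↦ ?_
  rw [integral_const_mul]

end aux

/-- **Theorem.** Let `D ≥ 1`, let `K` be even with `K ≥ 100 D²` and let `3 ≤ ℓ ≤ (K - 4)/2`. For
pairwise distinct primitive Dirichlet characters `χ_i` modulo `D` (of any parity, and any number of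
them) the twisted periods `r_{ℓ,χ_i}` on `S_K` are linearly independent over `ℂ`. -/
theorem result (D K ℓ : ℕ) (hD : 1 ≤ D) (hK : Even K) (hDK : 100 * D ^ 2 ≤ K)
    (hℓ : 3 ≤ ℓ) (hℓK : 2 * ℓ + 4 ≤ K)
    {n : ℕ} (χ : Fin n → DirichletCharacter ℂ D) (hχ : Function.Injective χ)
    (hprim : ∀ i, (χ i).IsPrimitive) (c : Fin n → ℂ)
    (hc : ∀ f : CuspForm 𝒮ℒ K, ∑ i, c i * twistedPeriod (χ i) ℓ f = 0) :
    c = 0 := by
  classical
  have : NeZero D := ⟨by omega⟩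
  have hDR : (0 : ℝ) < D := by exact_mod_cast hD
  set τ : Fin n → ℂ := fun i ↦ gaussSum (χ i)⁻¹ (ZMod.stdAddChar (N := D)) with hτ
  have hτ0 : ∀ i, τ i ≠ 0 := fun i ↦ gaussSum_ne_zero' (isPrimitive_inv (hprim i))
  set c' : Fin n → ℂ := fun i ↦ c i * (τ i)⁻¹ * (χ i)⁻¹ (-1) with hc'
  set B : ZMod D → ℂ := fun v ↦ ∑ i, c' i * χ i v with hB
  have hneg1 : ∀ i, (χ i)⁻¹ (-1 : ZMod D) ≠ 0 := fun i h ↦ by
    have h1 : (χ i)⁻¹ ((-1 : ZMod D) * (-1)) = 0 := by rw [map_mul, h, zero_mul]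
    simp at h1
  -- characters are linearly independent
  have hB0 : B = 0 → c = 0 := by
    intro h
    have hli := (linearIndependent_monoidHom (ZMod D) ℂ).comp (fun i ↦ (χ i).toMonoidHom)
      (fun i j hij ↦ hχ (by
        ext u
        exact DFunLike.congr_fun hij (u : ZMod D)))
    have h2 := Fintype.linearIndependent_iff.mp hli c' (by
      funext v
      have := congrFun h v
      simpa [hB, Finset.sum_apply] using this)
    funext i
    have h3 := h2 i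
    simp only [hc', mul_eq_zero, inv_eq_zero, hτ0 i, hneg1 i, or_false] at h3
    exact h3
  by_contra hcne
  have hBne : B ≠ 0 := fun h ↦ hcne (hB0 h)
  obtain ⟨k0, hk0⟩ := Finite.exists_max (fun k : ZMod D ↦ ‖ZMod.dft B k‖)
  set M := ‖ZMod.dft B k0‖ with hM
  have hBM : ∀ v, ‖B v‖ ≤ M := by
    intro v
    have h := congrFun (ZMod.dft_dft B) (-v)
    rw [neg_neg, ZMod.dft_apply] at h
    have h2 : ‖(D : ℂ) • B v‖ ≤ D * M := by
      rw [← h]
      refine (norm_sum_le _ _).trans ?_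
      have h3 : ∀ j : ZMod D, ‖ZMod.stdAddChar (-(j * -v)) • ZMod.dft B j‖ ≤ M := by
        intro j
        rw [norm_smul, AddChar.norm_apply, one_mul]
        exact hk0 j
      refine (Finset.sum_le_sum fun j _ ↦ h3 j).trans ?_
      simp [ZMod.card]
    rw [norm_smul, Complex.norm_natCast] at h2
    exact le_of_mul_le_mul_left h2 hDR
  -- representative of the frequency
  obtain ⟨r, hr0, hrD, hrk⟩ : ∃ r : ℕ, 0 < r ∧ r ≤ D ∧ (r : ZMod D) = -k0 := by
    by_cases h : (-k0).val = 0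
    · refine ⟨D, hD, le_rfl, ?_⟩
      rw [ZMod.natCast_self, eq_comm, ← ZMod.val_eq_zero]
      exact h
    · exact ⟨(-k0).val, Nat.pos_of_ne_zero h, (ZMod.val_lt _).le, ZMod.natCast_zmod_val _⟩
  obtain ⟨f, hf⟩ := key_estimate (D := D) (r := r) (K := K) (n := ℓ) hD hr0 hrD hK hℓ hℓK hDK
  set J : (ZMod D)ˣ → ℂ := fun u ↦
    ∫ y in Ioi (0 : ℝ), onLine f ((((u : ZMod D).val : ℤ) : ℝ) / D) y * (y : ℂ) ^ ℓ with hJ
  set κ : ℂ := (I ^ K)⁻¹ * (D : ℂ) ^ (K - 2 * ℓ - 2) with hκ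
  set P : ℝ := (D : ℝ) ^ (K - 2 * ℓ - 2) with hP
  set G : ℝ := mainVal r (K - 2 - ℓ) with hG
  have hGpos : 0 < G := mainVal_pos hr0 _
  have hPpos : 0 < P := by positivity
  have hκP : ‖κ‖ = P := by
    rw [hκ, norm_mul, norm_inv, norm_pow, Complex.norm_I, one_pow, inv_one, one_mul, norm_pow,
      Complex.norm_natCast]
  have hkey : ∀ v : (ZMod D)ˣ,
      IntegrableOn (fun y : ℝ ↦ onLine f (((((-v⁻¹ : (ZMod D)ˣ) : ZMod D).val : ℤ) : ℝ) / D) y *
        (y : ℂ) ^ ℓ) (Ioi 0) ∧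
      ‖J (-v⁻¹) - κ * (ZMod.stdAddChar ((r : ZMod D) * (v : ZMod D)) * (G : ℂ))‖ <
        P * (G / D) := by
    intro v
    obtain ⟨b, hb⟩ := exists_relation v
    have h := hf _ _ b hb (abs_val_div_le _) (abs_val_div_le _)
    refine ⟨h.1, ?_⟩
    rw [stdAddChar_natCast_mul]
    exact h.2
  have hint : ∀ u : (ZMod D)ˣ, IntegrableOn
      (fun y : ℝ ↦ onLine f ((((u : ZMod D).val : ℤ) : ℝ) / D) y * (y : ℂ) ^ ℓ) (Ioi 0) := by
    intro u
    have h := (hkey (-u⁻¹)).1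
    have e : (-(-u⁻¹)⁻¹ : (ZMod D)ˣ) = u := by simp
    rwa [e] at h
  -- the relation
  have hrel : ∑ v : (ZMod D)ˣ, B v * J (-v⁻¹) = 0 := by
    have h1 := hc f
    have h2 : ∀ i, c i * twistedPeriod (χ i) ℓ f = I ^ (ℓ + 1) *
        ∑ v : (ZMod D)ˣ, (c' i * χ i v) * J (-v⁻¹) := by
      intro i
      rw [twistedPeriod_eq (hprim i) f ℓ hint]
      have h3 : ∑ u : (ZMod D)ˣ, (χ i)⁻¹ (u : ZMod D) * J u =
          ∑ v : (ZMod D)ˣ, (χ i)⁻¹ ((-v⁻¹ : (ZMod D)ˣ) : ZMod D) * J (-v⁻¹) := by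
        refine (Equiv.sum_comp ((Equiv.inv (ZMod D)ˣ).trans (Equiv.neg (ZMod D)ˣ))
          (fun u : (ZMod D)ˣ ↦ (χ i)⁻¹ (u : ZMod D) * J u)).symm
      rw [hJ] at h3
      rw [h3]
      rw [Finset.mul_sum, Finset.mul_sum, Finset.mul_sum]
      refine Finset.sum_congr rfl fun v _ ↦ ?_
      have h4 : (χ i)⁻¹ ((-v⁻¹ : (ZMod D)ˣ) : ZMod D) = (χ i)⁻¹ (-1) * χ i v := by
        have h5 : ((-v⁻¹ : (ZMod D)ˣ) : ZMod D) = -1 * ((v⁻¹ : (ZMod D)ˣ) : ZMod D) := by simp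
        rw [h5, map_mul]
        congr 1
        rw [MulChar.inv_apply_eq_inv, ← MulChar.inv_apply_eq_inv, MulChar.inv_apply,
          Ring.inverse_unit, inv_inv]
      rw [h4]
      simp only [hc']
      ring
    simp only [h2, ← Finset.mul_sum] at h1
    have h3 : (I : ℂ) ^ (ℓ + 1) ≠ 0 := pow_ne_zero _ I_ne_zero
    rw [mul_eq_zero, or_iff_right h3, Finset.sum_comm] at h1
    rw [← h1]
    refine Finset.sum_congr rfl fun v _ ↦ ?_
    rw [hB, Finset.sum_mul]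
  -- the main sum
  have hmain : ∑ v : (ZMod D)ˣ, B v * (κ * (ZMod.stdAddChar ((r : ZMod D) * (v : ZMod D)) * (G : ℂ))) =
      κ * G * ZMod.dft B k0 := by
    have h1 : ZMod.dft B k0 = ∑ v : (ZMod D)ˣ, B v * ZMod.stdAddChar ((r : ZMod D) * (v : ZMod D)) := by
      rw [ZMod.dft_apply]
      have h2 : ∀ j : ZMod D, ZMod.stdAddChar (-(j * k0)) • B j =
          ∑ i, c' i * (χ i j * ZMod.stdAddChar ((r : ZMod D) * j)) := by
        intro j
        rw [hrk, smul_eq_mul, hB, Finset.mul_sum]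
        refine Finset.sum_congr rfl fun i _ ↦ ?_
        rw [show -(j * k0) = -k0 * j by ring]
        ring
      simp only [h2]
      rw [Finset.sum_comm]
      simp only [← Finset.mul_sum]
      simp only [sum_char_eq_units]
      simp only [Finset.mul_sum]
      rw [Finset.sum_comm]
      refine Finset.sum_congr rfl fun v _ ↦ ?_
      rw [hB, Finset.sum_mul]
      refine Finset.sum_congr rfl fun i _ ↦ ?_
      ring
    rw [h1, Finset.mul_sum]
    refine Finset.sum_congr rfl fun v _ ↦ ?_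
    ring
  have hdiff : κ * G * ZMod.dft B k0 =
      -∑ v : (ZMod D)ˣ, B v * (J (-v⁻¹) -
        κ * (ZMod.stdAddChar ((r : ZMod D) * (v : ZMod D)) * (G : ℂ))) := by
    simp only [mul_sub, Finset.sum_sub_distrib]
    rw [hrel, hmain]
    ring
  -- a unit at which B does not vanish
  obtain ⟨v0, hv0⟩ : ∃ v0 : (ZMod D)ˣ, B v0 ≠ 0 := by
    by_contra hcon
    push Not at hcon
    apply hBne
    funext a
    by_cases ha : IsUnit a
    · obtain ⟨u, rfl⟩ := ha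
      exact hcon u
    · simp [hB, MulChar.map_nonunit _ ha]
  have hlt : ‖∑ v : (ZMod D)ˣ, B v * (J (-v⁻¹) -
        κ * (ZMod.stdAddChar ((r : ZMod D) * (v : ZMod D)) * (G : ℂ)))‖ <
      ∑ v : (ZMod D)ˣ, ‖B v‖ * (P * (G / D)) := by
    refine (norm_sum_le _ _).trans_lt ?_
    refine Finset.sum_lt_sum (fun v _ ↦ ?_) ⟨v0, Finset.mem_univ _, ?_⟩
    · rw [norm_mul]
      exact mul_le_mul_of_nonneg_left (hkey v).2.le (norm_nonneg _)
    · rw [norm_mul]
      exact mul_lt_mul_of_pos_left (hkey v0).2 (norm_pos_iff.mpr hv0)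
  have hle : ∑ v : (ZMod D)ˣ, ‖B v‖ * (P * (G / D)) ≤ P * G * M := by
    have h1 : ∀ v : (ZMod D)ˣ, ‖B v‖ * (P * (G / D)) ≤ M * (P * (G / D)) := fun v ↦
      mul_le_mul_of_nonneg_right (hBM v) (by positivity)
    refine (Finset.sum_le_sum fun v _ ↦ h1 v).trans ?_
    rw [Finset.sum_const, nsmul_eq_mul, Finset.card_univ]
    have h2 : (Fintype.card (ZMod D)ˣ : ℝ) ≤ D := by
      have : Fintype.card (ZMod D)ˣ ≤ Fintype.card (ZMod D) :=
        Fintype.card_le_of_injective _ Units.val_injective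
      rw [ZMod.card] at this
      exact_mod_cast this
    have hM0 : 0 ≤ M := norm_nonneg _
    calc _ ≤ (D : ℝ) * (M * (P * (G / D))) := by gcongr
      _ = P * G * M := by field_simp
  have hnorm : ‖κ * G * ZMod.dft B k0‖ = P * G * M := by
    rw [norm_mul, norm_mul, hκP, Complex.norm_real, Real.norm_of_nonneg hGpos.le]
  rw [hdiff, norm_neg] at hnorm
  linarith

end Pool.Agent.Results.MP_b06a2d_nt.LargeWeight
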